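import Pool.Agent.H652.PM.Basic

/-!
# Algebro-geometric variations of Hodge structure and families of matrices with prescribed entries

For an irreducible complex variety `B` with function field `K b` let `A b` be the abelian category of the
complex variations of Hodge structures on (small) dense open parts of `B` that are admissible and
graded-polarizable; its simple objects are the irreducible polarizable complex variations of pure Hodge
structures. For a separated scheme `Y` of finite type over `K b` (the generic fibre of a family over a dense
open part of `B`) let `(D b).H i Y` be the variation of mixed Hodge structures `R^i π_! ℂ` carried by the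
cohomology with compact supports of the fibres. The standard properties are `IsCompact (D b)` (long exact
sequences, affine bundles, products with `𝔾_m`), and `Generated (D b)` expresses the resolution of
singularities (Hironaka): the smooth projective schemes of dimension at most `n` generate the cohomology with
compact supports of all schemes of dimension at most `n`.

`Γ` is the set of the germs of complex variations at the points of `𝒰^cl` obtained from the genus-zero
Gromov-Witten invariants of `V`. `Loc γ b n S` says that the germ `γ` is locally equivalent (by a local
biholomorphism of the bases, up to reindexing) to the filtered flat bundle `S_1 ⊕ ⋯ ⊕ S_n`, `S_j` in `A b`.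

The variation of pure Hodge structures carried by the cohomology of the fibres of a family of smooth
projective varieties is semisimple (Deligne). So a germ is algebro-geometric if and only if it is locally
equivalent to `S_1 ⊕ ⋯ ⊕ S_n`, with simple `S_j` each of which is, up to a Tate twist (a reindexing), a
subquotient of the cohomology `H^i(Y)` of a smooth projective family `Y` over a dense open part of one and
the same `B` (for different `j` the families can be put together by disjoint unions and products with
projective spaces and elliptic curves). This is `AlgGeo`.

`M : PMat (K b)` consists of a size `m`, a set `F` of places in an `m × m` matrix, and rational functions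
`c e` on `B`, `e ∈ F`. `M.sch` is the generic fibre of the family, over a dense open part of `B`, whose
fibre at `t` consists of the invertible `m × m` matrices with the entry `c e (t)` at the place `e` for
`e ∈ F`, the other entries being independent coordinates.

**Theorem.** (1) A germ `γ` is algebro-geometric if and only if it is locally equivalent to a direct sum of
simple variations over some `B` each of which is, up to a Tate twist, a subquotient of the variation
`H^i_c(M_t)`, for some `i`, of a family of invertible matrices with prescribed entries over a dense open
part of `B`.

(2) For every family `Y` over `B` there is a finite list of such families of matrices such that all simple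
subquotients of the variations `H^i(Y)` are, up to Tate twists, subquotients of the variations of the families
in the list; the same list is good for all other theories over `K b` with the standard properties (for
instance for the underlying `ℓ`-adic local systems, all `ℓ`).
-/

set_option autoImplicit false

open CategoryTheory CategoryTheory.Limits AlgebraicGeometry Pool.Agent.Y116.UV Pool.Agent.Z125.UN
  Pool.Agent.Q193.LT Pool.Agent.H652.PM

universe v u

namespace Pool.Agent.Results.MP_a4dd1d_ag.PrescribedMatrices

variable {ι : Type} {K : ι → Type} [∀ b, Field (K b)] {A : ι → Type u} [∀ b, Category.{v} (A b)]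
  [∀ b, Abelian (A b)] {Γ : Type}

/-- `γ` is locally equivalent to a direct sum of simple variations `S_j` over some base `b` with `P b S_j`. -/
def LocSum (Loc : Γ → ∀ (b : ι) (n : ℕ), (Fin n → A b) → Prop) (P : ∀ b, A b → Prop) (γ : Γ) : Prop :=
  ∃ (b : ι) (n : ℕ) (S : Fin n → A b), (∀ j, Simple (S j)) ∧ Loc γ b n S ∧ ∀ j, P b (S j)

/-- The germ `γ` is algebro-geometric. -/
def AlgGeo (D : ∀ b, CompactData (K b) (A b)) (Loc : Γ → ∀ (b : ι) (n : ℕ), (Fin n → A b) → Prop)
    (γ : Γ) : Prop :=
  LocSum Loc (fun b S => ∃ Y : Sch (K b), SmoothProj Y ∧ OccursIn (D b) S Y) γ

lemma locSum_congr {Loc : Γ → ∀ (b : ι) (n : ℕ), (Fin n → A b) → Prop} {P Q : ∀ b, A b → Prop}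
    (h : ∀ b (S : A b), Simple S → (P b S ↔ Q b S)) (γ : Γ) : LocSum Loc P γ ↔ LocSum Loc Q γ := by
  constructor
  · rintro ⟨b, n, S, hS, hl, hp⟩
    exact ⟨b, n, S, hS, hl, fun j => (h b (S j) (hS j)).mp (hp j)⟩
  · rintro ⟨b, n, S, hS, hl, hp⟩
    exact ⟨b, n, S, hS, hl, fun j => (h b (S j) (hS j)).mpr (hp j)⟩

/-- **Algebro-geometric variations and matrices with prescribed entries.** See the explanations above. -/
theorem result [∀ b, CharZero (K b)] {D : ∀ b, CompactData (K b) (A b)} (hD : ∀ b, IsCompact (D b))
    (hironaka : ∀ b, Generated (D b)) (Loc : Γ → ∀ (b : ι) (n : ℕ), (Fin n → A b) → Prop) :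
    (∀ γ, AlgGeo D Loc γ ↔
      LocSum Loc (fun b S => ∃ M : PMat (K b), OccursIn (D b) S M.sch) γ) ∧
    ∀ (b : ι) (Y : Sch (K b)), FT True Y → ∃ L : List (PMat (K b)),
      ∀ (A' : Type u) [Category.{v} A'] [Abelian A'] (D' : CompactData (K b) A'), IsCompact D' →
        ∀ (S : A') [Simple S], OccursIn D' S Y → ∃ M ∈ L, OccursIn D' S M.sch := by
  refine ⟨fun γ => locSum_congr (fun b S hS => ?_) γ, fun b Y hY => list_for Y hY⟩
  exact origin_proj_mat (hD b) (hironaka b) S

end Pool.Agent.Results.MP_a4dd1d_ag.PrescribedMatrices
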